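import Mathlib
import Pool.Agent.X279.SkewLaurent
import Pool.Agent.X279.JacUnit

/-!
# A local skew Laurent series ring whose coefficient ring has a non-nil Jacobson radical

Let `S = k⟦t⟧` and let `A` be the ring of the sequences `a : ℤ → S` for which there is a constant
`c ∈ k` with `aᵢ(0) = c` for all `i` and `aᵢ = c` for almost all `i`; let `φ` be the shift.  Then
`A((x, φ))` is a local ring, but `J(A)` contains the non-nilpotent elements supported at one index.
-/

set_option autoImplicit false

namespace Pool.Agent.Results.MP_669787_al.NotNil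

open Pool.Agent.X279 PowerSeries

/-- Semilocal rings: `R / J(R)` is semisimple Artinian. -/
def Semilocal (R : Type) [Ring R] : Prop := IsSemisimpleRing (R ⧸ Ring.jacobson R)

/-- The power series ring `ℚ⟦t⟧`. -/
abbrev SS : Type := ℚ⟦X⟧

/-- The ring `A` of almost constant sequences. -/
def AA : Subring (ℤ → SS) where
  carrier := {a | ∃ c : ℚ, (∀ i, constantCoeff (a i) = c) ∧ {i | a i ≠ PowerSeries.C c}.Finite}
  zero_mem' := ⟨0, fun i => by simp, by simp⟩
  one_mem' := ⟨1, fun i => by simp, by simp⟩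
  add_mem' := by
    rintro a b ⟨c, hc, hc'⟩ ⟨d, hd, hd'⟩
    refine ⟨c + d, fun i => by rw [Pi.add_apply, map_add, hc, hd], (hc'.union hd').subset ?_⟩
    intro i hi
    by_contra hcon
    rw [Set.mem_union, not_or, Set.mem_ofPred_eq, Set.mem_ofPred_eq, not_not, not_not] at hcon
    exact hi (by rw [Pi.add_apply, hcon.1, hcon.2, map_add])
  neg_mem' := by
    rintro a ⟨c, hc, hc'⟩
    refine ⟨-c, fun i => by rw [Pi.neg_apply, map_neg, hc], hc'.subset ?_⟩
    intro i hi
    by_contra hcon
    rw [Set.mem_ofPred_eq, not_not] at hcon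
    exact hi (by rw [Pi.neg_apply, hcon, map_neg])
  mul_mem' := by
    rintro a b ⟨c, hc, hc'⟩ ⟨d, hd, hd'⟩
    refine ⟨c * d, fun i => by rw [Pi.mul_apply, map_mul, hc, hd], (hc'.union hd').subset ?_⟩
    intro i hi
    by_contra hcon
    rw [Set.mem_union, not_or, Set.mem_ofPred_eq, Set.mem_ofPred_eq, not_not, not_not] at hcon
    exact hi (by rw [Pi.mul_apply, hcon.1, hcon.2, map_mul])

theorem shift_mem {a : ℤ → SS} (ha : a ∈ AA) (n : ℤ) : (fun i => a (i - n)) ∈ AA := by
  obtain ⟨c, hc, hc'⟩ := ha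
  refine ⟨c, fun i => hc _, ?_⟩
  have : {i : ℤ | a (i - n) ≠ PowerSeries.C c} = (fun i => i - n) ⁻¹' {i | a i ≠ PowerSeries.C c} := rfl
  rw [this]
  exact hc'.preimage (fun i _ j _ h => by simpa using h)

/-- The shift automorphism. -/
noncomputable def phi : RingAut AA where
  toFun a := ⟨fun i => a.1 (i - 1), shift_mem a.2 1⟩
  invFun a := ⟨fun i => a.1 (i - (-1)), shift_mem a.2 (-1)⟩
  left_inv a := by apply Subtype.ext; funext i; simp
  right_inv a := by apply Subtype.ext; funext i; simp
  map_mul' a b := rfl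
  map_add' a b := rfl

theorem phi_zpow (n : ℤ) : ∀ (a : AA) (i : ℤ), ((phi ^ n) a).1 i = a.1 (i - n) := by
  induction n using Int.induction_on with
  | zero => intro a i; simp
  | succ n ih =>
    intro a i
    rw [zpow_add, zpow_one, RingAut.mul_apply, ih]
    change a.1 (i - n - 1) = a.1 (i - (n + 1))
    exact congrArg a.1 (by ring)
  | pred n ih =>
    intro a i
    rw [zpow_sub, zpow_one, RingAut.mul_apply, ih]
    change a.1 (i - -n - (-1)) = a.1 (i - (-n - 1))
    exact congrArg a.1 (by ring)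

/-- `R = A((x, φ))`. -/
abbrev RR : Type := SkewLaurent phi

/-- Evaluation at an index. -/
noncomputable def evA (i : ℤ) : AA →+* SS := (Pi.evalRingHom (fun _ => SS) i).comp AA.subtype

/-- The matrix entries of a skew Laurent series. -/
noncomputable def entry (F : RR) (i j : ℤ) : SS := (F.coeff (i - j)).1 i

theorem entry_ext {F G : RR} (h : ∀ i j, entry F i j = entry G i j) : F = G := by
  ext1
  funext n
  apply Subtype.ext
  funext i
  have := h i (i - n)
  unfold entry at this
  rwa [sub_sub_cancel] at this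

theorem entry_mul (F G : RR) (i j : ℤ) :
    entry (F * G) i j = ∑ᶠ l : ℤ, entry F i l * entry G l j := by
  have h1 : entry (F * G) i j = evA i ((F * G).coeff (i - j)) := rfl
  rw [h1, SkewLaurent.coeff_mul]
  have h2 := (evA i : AA →+ SS).map_finsum (SkewLaurent.hasFiniteSupport F G (i - j))
  change evA i _ = _ at h2
  rw [h2, ← finsum_comp_equiv (Equiv.subLeft i)]
  refine finsum_congr fun l => ?_
  have h3 : ∀ p : ℤ, (evA i : AA →+ SS) (F.coeff p * (phi ^ p) (G.coeff (i - j - p)))
      = (F.coeff p).1 i * ((phi ^ p) (G.coeff (i - j - p))).1 i := fun p => rfl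
  rw [h3, phi_zpow]
  simp only [entry, Equiv.subLeft_apply]
  rw [sub_sub_cancel, show i - j - (i - l) = l - j by ring]

theorem entry_add (F G : RR) (i j : ℤ) : entry (F + G) i j = entry F i j + entry G i j := rfl
theorem entry_sub (F G : RR) (i j : ℤ) : entry (F - G) i j = entry F i j - entry G i j := rfl
theorem entry_zero (i j : ℤ) : entry 0 i j = 0 := rfl

theorem entry_one (i j : ℤ) : entry 1 i j = if i = j then 1 else 0 := by
  unfold entry
  rw [SkewLaurent.coeff_one]
  by_cases h : i = j
  · simp [h]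
  · rw [if_neg (by omega), if_neg h]
    rfl

/-- Elements of `A` with nonzero constant term are units. -/
theorem isUnit_of_ne {a : AA} {c : ℚ} (hc : c ≠ 0) (h : ∀ i, constantCoeff (a.1 i) = c) :
    IsUnit a := by
  obtain ⟨c', hc', hfin⟩ := a.2
  have hcc : c' = c := by rw [← hc' 0, h 0]
  rw [hcc] at hfin
  have hb : (fun i => (a.1 i)⁻¹) ∈ AA := by
    refine ⟨c⁻¹, fun i => by rw [PowerSeries.constantCoeff_inv, h], hfin.subset ?_⟩
    intro i hi
    by_contra hcon
    rw [Set.mem_ofPred_eq, not_not] at hcon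
    exact hi (by simp only [hcon, PowerSeries.C_inv])
  refine IsUnit.of_mul_eq_one ⟨_, hb⟩ ?_
  apply Subtype.ext
  funext i
  exact PowerSeries.mul_inv_cancel _ (by rw [h]; exact hc)

/-- The ideal `K((x, φ))`. -/
def InK (F : RR) : Prop := ∀ n i, constantCoeff ((F.coeff n).1 i) = 0

theorem inK_iff {F : RR} : InK F ↔ ∀ i j, constantCoeff (entry F i j) = 0 := by
  constructor
  · intro h i j
    exact h _ _
  · intro h n i
    have := h i (i - n)
    unfold entry at this
    rwa [sub_sub_cancel] at this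

theorem entry_support {F G : RR} (i j : ℤ) :
    Function.HasFiniteSupport fun l => entry F i l * entry G l j := by
  obtain ⟨a, ha⟩ := F.bdd
  obtain ⟨b, hb⟩ := G.bdd
  refine (Set.finite_Icc (j + b) (i - a)).subset fun l hl => ?_
  rw [Function.mem_support] at hl
  constructor
  · by_contra h
    refine hl ?_
    have : entry G l j = 0 := by
      unfold entry
      rw [hb (l - j) (by omega)]
      rfl
    rw [this, mul_zero]
  · by_contra h
    refine hl ?_
    have : entry F i l = 0 := by
      unfold entry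
      rw [ha (i - l) (by omega)]
      rfl
    rw [this, zero_mul]

theorem InK.mul_left {F : RR} (hF : InK F) (G : RR) : InK (G * F) := by
  rw [inK_iff] at hF ⊢
  intro i j
  rw [entry_mul]
  have h := ((constantCoeff : SS →+* ℚ) : SS →+ ℚ).map_finsum (entry_support (F := G) (G := F) i j)
  change constantCoeff _ = _ at h
  rw [h]
  apply finsum_eq_zero_of_forall_eq_zero
  intro l
  change constantCoeff (entry G i l * entry F l j) = 0
  rw [map_mul, hF, mul_zero]

theorem InK.add {F G : RR} (hF : InK F) (hG : InK G) : InK (F + G) := by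
  intro n i
  change constantCoeff ((F.coeff n).1 i + (G.coeff n).1 i) = 0
  rw [map_add, hF, hG, add_zero]

/-- A sequence of elements of `t k⟦t⟧` with finite support, as an element of `A`. -/
theorem mem_of_finite {a : ℤ → SS} (h0 : ∀ i, constantCoeff (a i) = 0)
    (hfin : {i | a i ≠ 0}.Finite) : a ∈ AA :=
  ⟨0, h0, by simpa using hfin⟩

theorem finite_of_inK {F : RR} (hF : InK F) (n : ℤ) : {i | (F.coeff n).1 i ≠ 0}.Finite := by
  obtain ⟨c, hc, hfin⟩ := (F.coeff n).2
  have : c = 0 := by rw [← hc 0, hF]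
  rw [this] at hfin
  simpa using hfin

/-- Series whose matrix is zero outside finitely many columns. -/
def Cols (T : Finset ℤ) (F : RR) : Prop := ∀ i j, entry F i j ≠ 0 → j ∈ T

/-- Series whose matrix is zero outside finitely many rows. -/
def Rows (T : Finset ℤ) (F : RR) : Prop := ∀ i j, entry F i j ≠ 0 → i ∈ T

theorem Cols.mul_left {T : Finset ℤ} {F : RR} (hF : Cols T F) (G : RR) : Cols T (G * F) := by
  intro i j h
  by_contra hj
  apply h
  rw [entry_mul]
  apply finsum_eq_zero_of_forall_eq_zero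
  intro l
  have : entry F l j = 0 := by
    by_contra h'
    exact hj (hF l j h')
  rw [this, mul_zero]

/-- The series with a given finitely supported matrix with entries in `t k⟦t⟧`. -/
noncomputable def ofFin (T : Finset ℤ) (M : ℤ → ℤ → SS) (h0 : ∀ i j, constantCoeff (M i j) = 0)
    (h1 : ∀ i j, M i j ≠ 0 → i ∈ T ∧ j ∈ T) : RR where
  coeff n := ⟨fun i => M i (i - n), mem_of_finite (fun i => h0 _ _)
    (T.finite_toSet.subset fun i hi => (h1 _ _ hi).1)⟩
  bdd := by
    obtain ⟨B, hB⟩ : ∃ B : ℤ, ∀ i ∈ T, ∀ j ∈ T, B ≤ i - j := by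
      rcases T.eq_empty_or_nonempty with rfl | hT
      · exact ⟨0, by simp⟩
      · refine ⟨T.min' hT - T.max' hT, fun i hi j hj => ?_⟩
        have := T.min'_le i hi
        have := T.le_max' j hj
        omega
    refine ⟨B, fun n hn => ?_⟩
    apply Subtype.ext
    funext i
    change M i (i - n) = 0
    by_contra h
    obtain ⟨h2, h3⟩ := h1 _ _ h
    have := hB _ h2 _ h3
    omega

theorem entry_ofFin {T : Finset ℤ} {M : ℤ → ℤ → SS} {h0 : ∀ i j, constantCoeff (M i j) = 0}
    {h1 : ∀ i j, M i j ≠ 0 → i ∈ T ∧ j ∈ T} (i j : ℤ) : entry (ofFin T M h0 h1) i j = M i j := by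
  change M i (i - (i - j)) = M i j
  rw [sub_sub_cancel]

/-- `1 + G` is a unit when the matrix of `G` is supported on `T × T`. -/
theorem isUnit_square {T : Finset ℤ} {G : RR} (hG : InK G) (hc : Cols T G) (hr : Rows T G) :
    ∃ H : RR, (1 + G) * (1 + H) = 1 ∧ (1 + H) * (1 + G) = 1 ∧ Cols T H := by
  classical
  let M : Matrix T T SS := fun i j => entry G i j
  have hMc : M.map (constantCoeff : SS →+* ℚ) = 0 := by
    ext i j
    exact inK_iff.1 hG i j
  have hdet : IsUnit (1 + M).det := by
    rw [PowerSeries.isUnit_iff_constantCoeff]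
    have : constantCoeff (1 + M).det = 1 := by
      rw [RingHom.map_det]
      have h2 : (constantCoeff : SS →+* ℚ).mapMatrix (1 + M) = 1 := by
        rw [map_add, map_one]
        change 1 + M.map (constantCoeff : SS →+* ℚ) = 1
        rw [hMc, add_zero]
      rw [h2, Matrix.det_one]
    rw [this]
    exact isUnit_one
  set N : Matrix T T SS := (1 + M)⁻¹ - 1 with hN
  have e1 : (1 + M) * (1 + N) = 1 := by
    rw [hN, add_sub_cancel, Matrix.mul_nonsing_inv _ hdet]
  have e2 : (1 + N) * (1 + M) = 1 := by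
    rw [hN, add_sub_cancel, Matrix.nonsing_inv_mul _ hdet]
  have e1' : M + N + M * N = 0 := by
    have : (1 + M) * (1 + N) = 1 + (M + N + M * N) := by noncomm_ring
    rw [this] at e1
    exact add_eq_left.1 e1
  have e2' : M + N + N * M = 0 := by
    have : (1 + N) * (1 + M) = 1 + (M + N + N * M) := by noncomm_ring
    rw [this] at e2
    exact add_eq_left.1 e2
  have hNc : ∀ i j, constantCoeff (N i j) = 0 := by
    have h3 : (constantCoeff : SS →+* ℚ).mapMatrix (M + N + M * N) = 0 := by rw [e1', map_zero]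
    rw [map_add, map_add, map_mul] at h3
    have h4 : (constantCoeff : SS →+* ℚ).mapMatrix M = 0 := hMc
    rw [h4, zero_mul, zero_add, add_zero] at h3
    intro i j
    exact congrFun (congrFun h3 i) j
  let N' : ℤ → ℤ → SS := fun i j => if h : i ∈ T ∧ j ∈ T then N ⟨i, h.1⟩ ⟨j, h.2⟩ else 0
  have hN'c : ∀ i j, constantCoeff (N' i j) = 0 := by
    intro i j
    by_cases h : i ∈ T ∧ j ∈ T
    · simp only [N', dif_pos h, hNc]
    · simp only [N', dif_neg h, map_zero]
  have hN's : ∀ i j, N' i j ≠ 0 → i ∈ T ∧ j ∈ T := by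
    intro i j h
    by_contra h'
    exact h (dif_neg h')
  set H : RR := ofFin T N' hN'c hN's with hH
  have hHe : ∀ i j, entry H i j = N' i j := fun i j => entry_ofFin i j
  have hGe : ∀ i j, ¬ (i ∈ T ∧ j ∈ T) → entry G i j = 0 := by
    intro i j h
    by_contra h'
    exact h ⟨hr i j h', hc i j h'⟩
  -- products of matrices supported on `T × T`
  have hprod : ∀ (F F' : RR) (P P' : Matrix T T SS),
      (∀ i j : T, entry F i j = P i j) → (∀ i j : T, entry F' i j = P' i j) →
      (∀ i j, ¬ (i ∈ T ∧ j ∈ T) → entry F i j = 0) → (∀ i j, ¬ (i ∈ T ∧ j ∈ T) → entry F' i j = 0) →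
      (∀ i j : T, entry (F * F') i j = (P * P') i j) ∧
        ∀ i j, ¬ (i ∈ T ∧ j ∈ T) → entry (F * F') i j = 0 := by
    intro F F' P P' hP hP' hF hF'
    constructor
    · intro i j
      rw [entry_mul, finsum_eq_sum_of_support_subset (s := T), Matrix.mul_apply,
        ← Finset.sum_coe_sort]
      · refine Finset.sum_congr rfl fun l _ => ?_
        rw [hP, hP']
      · intro l hl
        rw [Function.mem_support] at hl
        by_contra h
        exact hl (by rw [hF i l (fun h' => h h'.2), zero_mul])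
    · intro i j h
      rw [entry_mul]
      apply finsum_eq_zero_of_forall_eq_zero
      intro l
      by_cases hi : i ∈ T
      · rw [hF' l j (fun h' => h ⟨hi, h'.2⟩), mul_zero]
      · rw [hF i l (fun h' => hi h'.1), zero_mul]
  have hHs : ∀ i j : T, entry H i j = N i j := by
    intro i j
    rw [hHe]
    exact dif_pos ⟨i.2, j.2⟩
  have hHz : ∀ i j, ¬ (i ∈ T ∧ j ∈ T) → entry H i j = 0 := by
    intro i j h
    rw [hHe]
    exact dif_neg h
  obtain ⟨p1, p2⟩ := hprod G H M N (fun i j => rfl) hHs hGe hHz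
  obtain ⟨q1, q2⟩ := hprod H G N M hHs (fun i j => rfl) hHz hGe
  have z1 : G + H + G * H = 0 := by
    apply entry_ext
    intro i j
    rw [entry_add, entry_add, entry_zero]
    by_cases h : i ∈ T ∧ j ∈ T
    · have := congrFun (congrFun e1' ⟨i, h.1⟩) ⟨j, h.2⟩
      have a1 := p1 ⟨i, h.1⟩ ⟨j, h.2⟩
      have a2 := hHs ⟨i, h.1⟩ ⟨j, h.2⟩
      simp only at a1 a2
      rw [a1, a2]
      exact this
    · rw [p2 i j h, hHz i j h, hGe i j h, add_zero, add_zero]
  have z2 : G + H + H * G = 0 := by
    apply entry_ext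
    intro i j
    rw [entry_add, entry_add, entry_zero]
    by_cases h : i ∈ T ∧ j ∈ T
    · have := congrFun (congrFun e2' ⟨i, h.1⟩) ⟨j, h.2⟩
      have a1 := q1 ⟨i, h.1⟩ ⟨j, h.2⟩
      have a2 := hHs ⟨i, h.1⟩ ⟨j, h.2⟩
      simp only at a1 a2
      rw [a1, a2]
      exact this
    · rw [q2 i j h, hHz i j h, hGe i j h, add_zero, add_zero]
  refine ⟨H, ?_, ?_, ?_⟩
  · have : (1 + G) * (1 + H) = 1 + (G + H + G * H) := by noncomm_ring
    rw [this, z1, add_zero]
  · have : (1 + H) * (1 + G) = 1 + (G + H + H * G) := by noncomm_ring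
    rw [this, z2, add_zero]
  · intro i j h
    rw [hHe] at h
    exact (hN's i j h).2

/-- `1 + G` is a unit when the matrix of `G` has finitely many nonzero columns. -/
theorem isUnit_cols {T : Finset ℤ} {G : RR} (hG : InK G) (hc : Cols T G) : IsUnit (1 + G) := by
  classical
  -- the rows of `G` in `T`
  let G1 : RR :=
    { coeff := fun n => ⟨fun i => if i ∈ T then (G.coeff n).1 i else 0,
        mem_of_finite (fun i => by split_ifs <;> simp [hG n i])
          ((finite_of_inK hG n).subset fun i hi => by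
            by_cases h : i ∈ T
            · simpa [h] using hi
            · simp [h] at hi)⟩
      bdd := by
        obtain ⟨a, ha⟩ := G.bdd
        refine ⟨a, fun n hn => ?_⟩
        apply Subtype.ext
        funext i
        change (if i ∈ T then (G.coeff n).1 i else 0) = 0
        rw [ha n hn]
        simp }
  have hG1e : ∀ i j, entry G1 i j = if i ∈ T then entry G i j else 0 := fun i j => rfl
  have hG1K : InK G1 := by
    rw [inK_iff] at hG ⊢
    intro i j
    rw [hG1e]
    split_ifs
    · exact hG i j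
    · exact map_zero _
  have hG1c : Cols T G1 := by
    intro i j h
    rw [hG1e] at h
    split_ifs at h with hi
    · exact hc i j h
    · exact absurd rfl h
  have hG1r : Rows T G1 := by
    intro i j h
    rw [hG1e] at h
    split_ifs at h with hi
    · exact hi
    · exact absurd rfl h
  obtain ⟨H, hH1, hH2, hHc⟩ := isUnit_square hG1K hG1c hG1r
  set G2 : RR := G - G1 with hG2
  have hG2e : ∀ i j, entry G2 i j = if i ∈ T then 0 else entry G i j := by
    intro i j
    rw [hG2, entry_sub, hG1e]
    split_ifs <;> simp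
  have hkill : ∀ F : RR, Cols T F → F * G2 = 0 := by
    intro F hF
    apply entry_ext
    intro i j
    rw [entry_mul, entry_zero]
    apply finsum_eq_zero_of_forall_eq_zero
    intro l
    by_cases hl : l ∈ T
    · rw [hG2e, if_pos hl, mul_zero]
    · have : entry F i l = 0 := by
        by_contra h
        exact hl (hF i l h)
      rw [this, zero_mul]
  have hG2c : Cols T G2 := by
    intro i j h
    rw [hG2e] at h
    split_ifs at h with hi
    · exact absurd rfl h
    · exact hc i j h
  set W : RR := G2 * (1 + H) with hW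
  have hWW : W * W = 0 := by
    have h1 : (1 + H) * G2 = G2 := by rw [add_mul, one_mul, hkill H hHc, add_zero]
    have h2 : G2 * G2 = 0 := hkill G2 hG2c
    calc W * W = G2 * ((1 + H) * G2) * (1 + H) := by rw [hW]; noncomm_ring
      _ = 0 := by rw [h1, h2, zero_mul]
  have hfac : 1 + G = (1 + W) * (1 + G1) := by
    have h1 : W * (1 + G1) = G2 := by
      rw [hW, mul_assoc, hH2, mul_one]
    rw [add_mul, one_mul, h1, hG2]
    abel
  have hu1 : IsUnit (1 + W) :=
    ⟨⟨1 + W, 1 - W, by
      have : (1 + W) * (1 - W) = 1 - W * W := by noncomm_ring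
      rw [this, hWW, sub_zero], by
      have : (1 - W) * (1 + W) = 1 - W * W := by noncomm_ring
      rw [this, hWW, sub_zero]⟩, rfl⟩
  have hu2 : IsUnit (1 + G1) := ⟨⟨1 + G1, 1 + H, hH1, hH2⟩, rfl⟩
  rw [hfac]
  exact hu1.mul hu2

/-- The ideal `K((x, φ))` is quasi-regular. -/
theorem isUnit_one_add {F : RR} (hF : InK F) : IsUnit (1 + F) := by
  classical
  obtain ⟨a, ha⟩ := F.bdd
  -- the negative part
  let Fn : RR :=
    { coeff := fun n => if n < 0 then F.coeff n else 0
      bdd := ⟨a, fun n hn => by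
        split_ifs
        · exact ha n hn
        · rfl⟩ }
  have hFn : ∀ n, Fn.coeff n = if n < 0 then F.coeff n else 0 := fun n => rfl
  have hFnK : InK Fn := by
    intro n i
    rw [hFn]
    split_ifs
    · exact hF n i
    · simp
  set P : RR := 1 + F - Fn with hP
  have hPc : ∀ n, P.coeff n = (if n = 0 then 1 else 0) + (if n < 0 then 0 else F.coeff n) := by
    intro n
    rw [hP, SkewLaurent.coeff_sub, SkewLaurent.coeff_add, SkewLaurent.coeff_one, hFn]
    split_ifs <;> simp
  have hPu : IsUnit P := by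
    refine SkewLaurent.isUnit_of_coeff_zero P (fun n hn => ?_) ?_
    · rw [hPc, if_neg (by omega), if_pos hn, add_zero]
    · rw [hPc, if_pos rfl, if_neg (lt_irrefl _)]
      refine isUnit_of_ne (c := 1) one_ne_zero fun i => ?_
      change constantCoeff (1 + (F.coeff 0).1 i) = 1
      rw [map_add, hF, map_one, add_zero]
  obtain ⟨u, hu⟩ := hPu
  -- finitely many columns
  have hTfin : {j : ℤ | ∃ n ∈ Finset.Ico a 0, ∃ i, (F.coeff n).1 i ≠ 0 ∧ j = i - n}.Finite := by
    have : {j : ℤ | ∃ n ∈ Finset.Ico a 0, ∃ i, (F.coeff n).1 i ≠ 0 ∧ j = i - n}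
        ⊆ ⋃ n ∈ Finset.Ico a 0, (fun i => i - n) '' {i | (F.coeff n).1 i ≠ 0} := by
      rintro j ⟨n, hn, i, hi, rfl⟩
      simp only [Set.mem_iUnion]
      exact ⟨n, hn, i, hi, rfl⟩
    refine Set.Finite.subset ?_ this
    exact Set.Finite.biUnion (Finset.finite_toSet _) fun n _ => (finite_of_inK hF n).image _
  set T : Finset ℤ := hTfin.toFinset with hT
  have hFnC : Cols T Fn := by
    intro i j h
    rw [hT, Set.Finite.mem_toFinset]
    unfold entry at h
    rw [hFn] at h
    split_ifs at h with hneg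
    · refine ⟨i - j, ?_, i, h, by ring⟩
      rw [Finset.mem_Ico]
      refine ⟨?_, hneg⟩
      by_contra hlt
      rw [ha _ (not_le.1 hlt)] at h
      exact h rfl
    · exact absurd rfl h
  set G : RR := (↑u⁻¹ : RR) * Fn with hG
  have hGu := isUnit_cols (hFnK.mul_left (↑u⁻¹ : RR)) (hFnC.mul_left (↑u⁻¹ : RR))
  have hfac : 1 + F = (u : RR) * (1 + (↑u⁻¹ : RR) * Fn) := by
    rw [mul_add, mul_one, ← mul_assoc, Units.mul_inv, one_mul, hu, hP]
    abel
  rw [hfac]
  exact u.isUnit.mul hGu

/-- The elements outside `K((x, φ))` are units. -/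
theorem isUnit_of_not_inK {F : RR} (hF : ¬ InK F) : IsUnit F := by
  classical
  obtain ⟨a, ha⟩ := F.bdd
  have hcst : ∀ n, ∃ c : ℚ, ∀ i, constantCoeff ((F.coeff n).1 i) = c := by
    intro n
    obtain ⟨c, hc, -⟩ := (F.coeff n).2
    exact ⟨c, hc⟩
  choose c hc using hcst
  have hex : ∃ n, c n ≠ 0 := by
    by_contra hcon
    push Not at hcon
    exact hF fun n i => by rw [hc, hcon]
  have hbd : ∀ n, c n ≠ 0 → a ≤ n := by
    intro n hn
    by_contra h
    apply hn
    rw [← hc n 0, ha n (not_le.1 h)]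
    simp
  obtain ⟨m, hm, hmin⟩ := Int.exists_least_of_bdd ⟨a, hbd⟩ hex
  -- the part of degree at least `m`
  let P : RR :=
    { coeff := fun n => if n < m then 0 else F.coeff n
      bdd := ⟨m, fun n hn => if_pos hn⟩ }
  have hPn : ∀ n, P.coeff n = if n < m then 0 else F.coeff n := fun n => rfl
  have hPu : IsUnit P := by
    have e1 : (SkewLaurent.single (-m) 1 * SkewLaurent.single m 1 : RR) = 1 := by
      rw [SkewLaurent.single_mul_single, neg_add_cancel, map_one, mul_one]; rfl
    have e2 : (SkewLaurent.single m 1 * SkewLaurent.single (-m) 1 : RR) = 1 := by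
      rw [SkewLaurent.single_mul_single, add_neg_cancel, map_one, mul_one]; rfl
    have h1 : IsUnit (P * (SkewLaurent.single (-m) 1 : RR)) := by
      refine SkewLaurent.isUnit_of_coeff_zero _ (fun n hn => ?_) ?_
      · rw [SkewLaurent.coeff_mul_single, hPn, if_pos (by omega), zero_mul]
      · rw [SkewLaurent.coeff_mul_single, hPn, map_one, mul_one, if_neg (by omega)]
        refine isUnit_of_ne hm fun i => ?_
        rw [show (0 : ℤ) - -m = m by ring]
        exact hc m i
    have h2 : P = P * (SkewLaurent.single (-m) 1 : RR) * SkewLaurent.single m 1 := by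
      rw [mul_assoc, e1, mul_one]
    rw [h2]
    exact h1.mul ⟨⟨_, _, e2, e1⟩, rfl⟩
  obtain ⟨u, hu⟩ := hPu
  have hK : InK (F - P) := by
    intro n i
    rw [SkewLaurent.coeff_sub, hPn]
    split_ifs with h
    · rw [sub_zero, hc]
      by_contra h'
      have := hmin n h'
      omega
    · rw [sub_self]
      simp
  have hfac : F = (u : RR) * (1 + (↑u⁻¹ : RR) * (F - P)) := by
    rw [mul_add, mul_one, ← mul_assoc, Units.mul_inv, one_mul, hu]
    abel
  rw [hfac]
  exact u.isUnit.mul (isUnit_one_add (hK.mul_left _))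

theorem not_isUnit_of_inK {F : RR} (hF : InK F) : ¬ IsUnit F := by
  rintro ⟨u, rfl⟩
  have h1 := hF.mul_left (↑u⁻¹ : RR)
  rw [Units.inv_mul] at h1
  have h2 := h1 0 0
  have h3 : ((1 : RR).coeff 0).1 0 = (1 : SS) := by rw [SkewLaurent.coeff_one]; rfl
  rw [h3, map_one] at h2
  exact one_ne_zero h2

theorem mem_jacobson_iff {F : RR} : F ∈ Ring.jacobson RR ↔ InK F := by
  constructor
  · intro hF
    by_contra h
    obtain ⟨u, hu⟩ := isUnit_of_not_inK h
    have h1 : -1 ∈ Ring.jacobson RR := by
      have := Ideal.mul_mem_left (Ring.jacobson RR) (-(↑u⁻¹ : RR)) hF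
      rwa [← hu, neg_mul, Units.inv_mul] at this
    have h2 := isUnit_one_add_of_mem_jacobson h1
    rw [add_neg_cancel] at h2
    exact not_isUnit_of_inK (F := 0) (fun n i => by simp) h2
  · intro hF
    rw [← Ideal.jacobson_bot, Ideal.mem_jacobson_iff]
    intro y
    obtain ⟨u, hu⟩ := isUnit_one_add (hF.mul_left y)
    refine ⟨(↑u⁻¹ : RR), ?_⟩
    rw [Submodule.mem_bot]
    have : (↑u⁻¹ : RR) * y * F + ↑u⁻¹ - 1 = ↑u⁻¹ * (1 + y * F) - 1 := by noncomm_ring
    rw [this, ← hu, Units.inv_mul, sub_self]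

theorem semilocal_RR : Semilocal RR := by
  unfold Semilocal
  have hne : (1 : RR) ∉ Ring.jacobson RR := fun h =>
    not_isUnit_of_inK (mem_jacobson_iff.1 h) isUnit_one
  have hnt : Nontrivial (RR ⧸ Ring.jacobson RR) := by
    refine ⟨⟨1, 0, fun h => hne ?_⟩⟩
    exact (Ideal.Quotient.eq_zero_iff_mem).1 h
  have hsimple : IsSimpleModule (RR ⧸ Ring.jacobson RR) (RR ⧸ Ring.jacobson RR) := by
    rw [isSimpleModule_self_iff_isUnit]
    refine ⟨hnt, fun x hx => ?_⟩
    obtain ⟨F, rfl⟩ := Ideal.Quotient.mk_surjective x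
    have hF : ¬ InK F := fun h => hx (Ideal.Quotient.eq_zero_iff_mem.2 (mem_jacobson_iff.2 h))
    exact (isUnit_of_not_inK hF).map (Ideal.Quotient.mk (Ring.jacobson RR))
  unfold IsSemisimpleRing
  infer_instance

/-- The element `t` supported at the index `0`. -/
noncomputable def tt : AA := ⟨fun i => if i = 0 then X else 0,
  mem_of_finite (fun i => by split_ifs <;> simp)
    ((Set.finite_singleton (0 : ℤ)).subset fun i hi => by
      by_contra h
      exact hi (if_neg h))⟩

theorem tt_mem : tt ∈ Ring.jacobson AA := by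
  rw [← Ideal.jacobson_bot, Ideal.mem_jacobson_bot]
  intro y
  refine isUnit_of_ne (c := 1) one_ne_zero fun i => ?_
  change constantCoeff ((if i = 0 then X else 0) * y.1 i + 1) = 1
  split_ifs <;> simp

theorem tt_not_nilpotent : ¬ IsNilpotent tt := by
  rintro ⟨n, hn⟩
  have h1 : (evA 0 tt) ^ n = 0 := by rw [← map_pow, hn, map_zero]
  have h2 : evA 0 tt = X := rfl
  rw [h2] at h1
  exact pow_ne_zero n PowerSeries.X_ne_zero h1

/-- **Negative answer to Q1.** -/
theorem result : ∃ (A : Type) (_ : Ring A) (φ : RingAut A),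
    Semilocal (SkewLaurent φ) ∧ ∃ a ∈ Ring.jacobson A, ¬ IsNilpotent a :=
  ⟨AA, inferInstance, phi, semilocal_RR, tt, tt_mem, tt_not_nilpotent⟩

end Pool.Agent.Results.MP_669787_al.NotNil
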